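import Pool.Agent.Q204.TY.Top

set_option autoImplicit false

/-!
# A space of strong computable type with infinitely many components
-/

namespace Pool.Agent.Results.MP_f8852a_lc.InfinitelyManyComponents

open Q204.TY

/-- `K ⊆ Q` is semicomputable relative to `O`: the set of (codes of) finite lists of basic open
sets whose union covers `K` is c.e. relative to `O`. -/
def SemiComp (O : Set ℕ) (K : Set Cube) : Prop :=
  CEIn O {L : List Bx | K ⊆ ⋃ b ∈ L, box b}

/-- `K ⊆ Q` is computable relative to `O`: it is semicomputable relative to `O` and the set of
(codes of) basic open sets which meet `K` is c.e. relative to `O`. -/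
def Comp (O : Set ℕ) (K : Set Cube) : Prop :=
  SemiComp O K ∧ CEIn O {b : Bx | (box b ∩ K).Nonempty}

/-- `X` has strong computable type: for every oracle `O` and every copy `Y` of `X` in the Hilbert
cube, if `Y` is semicomputable relative to `O` then `Y` is computable relative to `O`. -/
def StrongComputableType (X : Type) [TopologicalSpace X] : Prop :=
  ∀ (O : Set ℕ) (Y : Set Cube), Nonempty (X ≃ₜ Y) → SemiComp O Y → Comp O Y

/-- There is a compact metrizable space with strong computable type and with infinitely many
connected components. -/
theorem result : ∃ (X : Type) (_ : TopologicalSpace X), CompactSpace X ∧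
    TopologicalSpace.MetrizableSpace X ∧ StrongComputableType X ∧
    Infinite (ConnectedComponents X) := by
  refine ⟨Q204.TY.X, inferInstance, inferInstance, metrizable_X, ?_, infinite_components⟩
  rintro O Y ⟨h⟩ hY
  refine ⟨hY, ?_⟩
  have hf : Continuous (fun x => (h x : Cube)) := continuous_subtype_val.comp h.continuous
  have hinj : Function.Injective (fun x => (h x : Cube)) :=
    Subtype.val_injective.comp h.injective
  have hr : Set.range (fun x => (h x : Cube)) = Y := by
    ext y
    constructor
    · rintro ⟨x, rfl⟩
      exact (h x).2
    · intro hy
      exact ⟨h.symm ⟨y, hy⟩, by simp⟩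
  have h1 := Q204.TY.main boxEB hf hinj (O := O)
  rw [hr] at h1
  exact h1 hY

end Pool.Agent.Results.MP_f8852a_lc.InfinitelyManyComponents
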